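import Pool.Agent.Helper26.AL.GoalsB
import Pool.Agent.Helper70.AF.KGL

/-!
Project AL (MP_af6c86_pr), packet KAS: the asymptotic number of cores.
-/

namespace Pool.Agent.Helper81.AL

open Finset Filter Topology
open Pool.Agent.Helper26.AF Pool.Agent.Helper26.AL
open Pool.Agent.Helper70.AF (prod_sq prod_fact)

lemma card_le_add {α : Type*} [Finite α] {p q r : α → Prop} (h : ∀ x, p x → q x ∨ r x) :
    Nat.card {x // p x} ≤ Nat.card {x // q x} + Nat.card {x // r x} := by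
  have e : ∀ p : α → Prop, Nat.card {x // p x} = {x | p x}.ncard := fun p =>
    Nat.card_coe_set_eq {x | p x}
  rw [e, e, e]
  refine (Set.ncard_le_ncard (t := {x | q x} ∪ {x | r x}) (fun x hx => h x hx)
    (Set.toFinite _)).trans (Set.ncard_union_le _ _)

lemma card_mono {α : Type*} [Finite α] {p q : α → Prop} (h : ∀ x, p x → q x) :
    Nat.card {x // p x} ≤ Nat.card {x // q x} := by
  have e : ∀ p : α → Prop, Nat.card {x // p x} = {x | p x}.ncard := fun p =>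
    Nat.card_coe_set_eq {x | p x}
  rw [e, e]
  exact Set.ncard_le_ncard (fun x hx => h x hx) (Set.toFinite _)

/-- the main quotient -/
noncomputable def RR (r s : ℕ) : ℝ :=
  ((s + r - 1).factorial : ℝ) / (((s - 2 * r).factorial : ℝ) * (s : ℝ) ^ (3 * r - 1))

/-- the quotient of the two products -/
noncomputable def QQ (r s : ℕ) : ℝ :=
  ((∏ i ∈ range (s - 2 * r), (6 * r + 2 * i - 1) : ℕ) : ℝ) /
    ((∏ i ∈ range (s - 2 * r), (6 * r + 2 * i) : ℕ) : ℝ)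

lemma RR_tendsto (r : ℕ) (hr : 1 ≤ r) : Tendsto (RR r) atTop (𝓝 1) := by
  have h1 : Tendsto (fun s : ℕ => ∏ i ∈ range (3 * r - 1), (((s + r - 1 - i : ℕ) : ℝ) / s)) atTop
      (𝓝 (∏ i ∈ range (3 * r - 1), (1 : ℝ))) := by
    refine tendsto_finsetProd _ fun i _ => ?_
    have h2 : Tendsto (fun s : ℕ => 1 + ((r : ℝ) - 1 - i) / (s : ℝ)) atTop (𝓝 (1 + 0)) :=
      tendsto_const_nhds.add (tendsto_const_div_atTop_nhds_zero_nat _)
    rw [add_zero] at h2
    refine h2.congr' ?_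
    filter_upwards [eventually_ge_atTop (i + 1)] with s hs
    have h3 : (s : ℝ) ≠ 0 := by
      have : s ≠ 0 := by omega
      exact_mod_cast this
    have h4 : ((s + r - 1 - i : ℕ) : ℝ) = (s : ℝ) + r - 1 - i := by
      have h5 : (s + r - 1 - i) + 1 + i = s + r := by omega
      have h6 : (((s + r - 1 - i) + 1 + i : ℕ) : ℝ) = ((s + r : ℕ) : ℝ) := by rw [h5]
      push_cast at h6
      linarith
    rw [h4]
    field_simp
    ring
  rw [prod_const_one] at h1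
  refine h1.congr' ?_
  filter_upwards [eventually_ge_atTop (2 * r)] with s hs
  have h2 := Nat.factorial_mul_descFactorial (n := s + r - 1) (k := 3 * r - 1) (by omega)
  have h3 : s + r - 1 - (3 * r - 1) = s - 2 * r := by omega
  rw [h3, Nat.descFactorial_eq_prod_range] at h2
  unfold RR
  rw [← h2, prod_div_distrib, prod_const, card_range]
  push_cast
  have h4 : (((s - 2 * r).factorial : ℕ) : ℝ) ≠ 0 := by
    exact_mod_cast Nat.factorial_ne_zero _
  rw [mul_div_mul_left _ _ h4]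

lemma QQ_nonneg (r s : ℕ) : 0 ≤ QQ r s := div_nonneg (Nat.cast_nonneg _) (Nat.cast_nonneg _)

lemma prod_pos' (r N : ℕ) (hr : 1 ≤ r) : 0 < ∏ i ∈ range N, (6 * r + 2 * i) :=
  prod_pos fun i _ => by omega

lemma QQ_tendsto (r : ℕ) (hr : 1 ≤ r) : Tendsto (QQ r) atTop (𝓝 0) := by
  have h1 : Tendsto (fun s : ℕ => Real.sqrt ((6 * (r : ℝ)) / (s : ℝ))) atTop (𝓝 0) := by
    have h2 := (Real.continuous_sqrt.tendsto 0).comp
      (tendsto_const_div_atTop_nhds_zero_nat (6 * (r : ℝ)))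
    rw [Real.sqrt_zero] at h2
    exact h2
  refine squeeze_zero' (Eventually.of_forall fun s => QQ_nonneg r s) ?_ h1
  filter_upwards [eventually_ge_atTop (2 * r)] with s hs
  obtain ⟨N, rfl⟩ : ∃ N, s = 2 * r + N := ⟨s - 2 * r, by omega⟩
  apply Real.le_sqrt_of_sq_le
  have h2 := prod_sq r N hr
  have h3 : (∏ i ∈ range N, (6 * r + 2 * i - 1)) ^ 2 * (2 * r + N) ≤
      (∏ i ∈ range N, (6 * r + 2 * i)) ^ 2 * (6 * r) :=
    (Nat.mul_le_mul_left _ (by omega)).trans (h2.trans (Nat.mul_le_mul_left _ (by omega)))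
  have hp : (0 : ℝ) < ((∏ i ∈ range N, (6 * r + 2 * i) : ℕ) : ℝ) := by
    exact_mod_cast prod_pos' r N hr
  have hs0 : (0 : ℝ) < ((2 * r + N : ℕ) : ℝ) := by
    have : 0 < 2 * r + N := by omega
    exact_mod_cast this
  unfold QQ
  rw [Nat.add_sub_cancel_left, div_pow, div_le_div_iff₀ (by positivity) hs0]
  have h4 : (((∏ i ∈ range N, (6 * r + 2 * i - 1) : ℕ) : ℝ)) ^ 2 * ((2 * r + N : ℕ) : ℝ) ≤
      (((∏ i ∈ range N, (6 * r + 2 * i) : ℕ) : ℝ)) ^ 2 * (6 * (r : ℝ)) := by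
    exact_mod_cast h3
  linarith

theorem goalKAS (hGRX : Pool.Agent.Helper26.AL.StmtGRX) (hPAX : Pool.Agent.Helper26.AL.StmtPAX)
    (hCNX : Pool.Agent.Helper26.AL.StmtCNX) (hTRX : Pool.Agent.Helper26.AL.StmtTRX)
    (hNCU : Pool.Agent.Helper26.AL.StmtNCU) : Pool.Agent.Helper26.AL.StmtKAS := by
  classical
  intro o r hr
  obtain ⟨C, hC, hNC⟩ := hNCU r hr
  obtain ⟨a, ha⟩ : ∃ a, a = Nat.card {κ : Equiv.Perm (KX r) // IsPair κ ∧ EX o κ} := ⟨_, rfl⟩
  obtain ⟨K, hK⟩ : ∃ K : ℝ, K = (a : ℝ) / (((2 * r).factorial : ℝ) * 36 ^ r) /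
    ((3 * r - 1).factorial : ℝ) := ⟨_, rfl⟩
  obtain ⟨K', hK'⟩ : ∃ K' : ℝ, K' = ((12 * r * Nat.doubleFactorial (6 * r - 1) : ℕ) : ℝ) /
    (((2 * r).factorial : ℝ) * 36 ^ r) / ((3 * r - 1).factorial : ℝ) := ⟨_, rfl⟩
  have hKe : eo o r / ((3 * r - 1).factorial : ℝ) = K := by
    rw [hK, ha]
    rfl
  rw [hKe]
  have hR := RR_tendsto r hr
  have hQ := QQ_tendsto r hr
  have hup : Tendsto (fun s : ℕ => K * RR r s + C / (s : ℝ)) atTop (𝓝 K) := by
    have h := (hR.const_mul K).add (tendsto_const_div_atTop_nhds_zero_nat C)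
    rw [mul_one, add_zero] at h
    exact h
  have hlow : Tendsto (fun s : ℕ => K * RR r s - K' * RR r s * QQ r s) atTop (𝓝 K) := by
    have h := (hR.const_mul K).sub ((hR.const_mul K').mul hQ)
    rw [mul_one, mul_zero, sub_zero] at h
    exact h
  -- the counting inequalities
  have key : ∀ N : ℕ, ((36 : ℝ) ^ r * 2 ^ N *
      (Nat.card {Γ : SimpleGraph (Fin (2 * r) ⊕ Fin N) // CubG o r N Γ} : ℝ) ≤
        (a : ℝ) * ((∏ i ∈ range N, (6 * r + 2 * i) : ℕ) : ℝ)) ∧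
      ((a : ℝ) * ((∏ i ∈ range N, (6 * r + 2 * i) : ℕ) : ℝ) -
        ((12 * r * Nat.doubleFactorial (6 * r - 1) : ℕ) : ℝ) *
          ((∏ i ∈ range N, (6 * r + 2 * i - 1) : ℕ) : ℝ) ≤ (36 : ℝ) ^ r * 2 ^ N *
      (Nat.card {Γ : SimpleGraph (Fin (2 * r) ⊕ Fin N) // CubG o r N Γ} : ℝ)) := by
    intro N
    obtain ⟨c1, c2⟩ := hCNX o r N hr
    have g1 := hGRX o r N (by omega)
    have g2 := hPAX o r N (by omega)
    have g3 : Nat.card {τ : Equiv.Perm (KX r ⊕ Fin N × Bool) // IsPair τ ∧ NoPure τ ∧ EP o τ} ≤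
        Nat.card {τ : Equiv.Perm (KX r ⊕ Fin N × Bool) //
          IsPair τ ∧ NoPure τ ∧ ¬ Short τ ∧ EP o τ} +
        Nat.card {τ : Equiv.Perm (KX r ⊕ Fin N × Bool) // IsPair τ ∧ NoPure τ ∧ Short τ} := by
      refine card_le_add fun τ hτ => ?_
      by_cases h : Short τ
      · exact Or.inr ⟨hτ.1, hτ.2.1, h⟩
      · exact Or.inl ⟨hτ.1, hτ.2.1, h, hτ.2.2⟩
    have e36 : (36 : ℝ) ^ r = 6 ^ (2 * r) := by rw [pow_mul]; norm_num
    rw [c1, ← ha] at g2 g3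
    constructor
    · rw [e36]
      exact_mod_cast g2
    · rw [e36, sub_le_iff_le_add]
      have g4 : a * ∏ i ∈ range N, (6 * r + 2 * i) ≤ 6 ^ (2 * r) * 2 ^ N *
          Nat.card {Γ : SimpleGraph (Fin (2 * r) ⊕ Fin N) // CubG o r N Γ} +
          12 * r * Nat.doubleFactorial (6 * r - 1) * ∏ i ∈ range N, (6 * r + 2 * i - 1) :=
        g3.trans (Nat.add_le_add g1 c2)
      exact_mod_cast g4
  -- the normalised quotients
  have hnorm : ∀ N : ℕ, ((2 * r + N).choose (2 * r) : ℝ) *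
      ((∏ i ∈ range N, (6 * r + 2 * i) : ℕ) : ℝ) / (36 ^ r * 2 ^ N) /
      (((2 * r + N).factorial : ℝ) * ((2 * r + N : ℕ) : ℝ) ^ (3 * r - 1)) =
      RR r (2 * r + N) / (((2 * r).factorial : ℝ) * 36 ^ r) / ((3 * r - 1).factorial : ℝ) := by
    intro N
    have h1 : (((∏ i ∈ range N, (6 * r + 2 * i) : ℕ) : ℝ)) * ((3 * r - 1).factorial : ℝ) =
        2 ^ N * ((2 * r + N + r - 1).factorial : ℝ) := by exact_mod_cast prod_fact r N hr
    have h2 : ((2 * r + N).choose (2 * r) : ℝ) * ((2 * r).factorial : ℝ) * (N.factorial : ℝ) =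
        ((2 * r + N).factorial : ℝ) := by
      have h3 := Nat.choose_mul_factorial_mul_factorial (Nat.le_add_right (2 * r) N)
      rw [Nat.add_sub_cancel_left] at h3
      exact_mod_cast h3
    have f1 : ((2 * r).factorial : ℝ) ≠ 0 := by exact_mod_cast Nat.factorial_ne_zero _
    have f2 : (N.factorial : ℝ) ≠ 0 := by exact_mod_cast Nat.factorial_ne_zero _
    have f3 : ((3 * r - 1).factorial : ℝ) ≠ 0 := by exact_mod_cast Nat.factorial_ne_zero _
    have f4 : (((2 * r + N : ℕ) : ℝ)) ^ (3 * r - 1) ≠ 0 := by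
      apply pow_ne_zero
      have : 2 * r + N ≠ 0 := by omega
      exact_mod_cast this
    have f5 : ((2 * r + N).choose (2 * r) : ℝ) ≠ 0 := by
      exact_mod_cast (Nat.choose_pos (Nat.le_add_right (2 * r) N)).ne'
    have h4 : (((∏ i ∈ range N, (6 * r + 2 * i) : ℕ) : ℝ)) =
        2 ^ N * ((2 * r + N + r - 1).factorial : ℝ) / ((3 * r - 1).factorial : ℝ) := by
      rw [← h1, mul_div_cancel_right₀ _ f3]
    unfold RR
    rw [Nat.add_sub_cancel_left, h4, ← h2]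
    field_simp
  have hko : ∀ N : ℕ, 
      ((Nat.card {Γ : SimpleGraph (Fin (2 * r) ⊕ Fin N) // CubG o r N Γ} : ℝ) *
        ((2 * r + N).choose (2 * r) : ℝ) ≤ (ko o (2 * r + N) r : ℝ)) ∧
      ((ko o (2 * r + N) r : ℝ) ≤
        (Nat.card {Γ : SimpleGraph (Fin (2 * r) ⊕ Fin N) // CubG o r N Γ} : ℝ) *
        ((2 * r + N).choose (2 * r) : ℝ) +
        C * ((2 * r + N).factorial : ℝ) * ((2 * r + N : ℕ) : ℝ) ^ (3 * r - 2)) := by
    intro N
    have h1 := hTRX o r N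
    have h2 := hNC (2 * r + N) (by omega)
    have h3 : Nat.card {Γ : SimpleGraph (Fin (2 * r + N)) // (∀ v, 2 ≤ dg Γ v) ∧ CXG Γ ∧
      ne Γ = 2 * r + N + r ∧ EO o Γ ∧ ∀ v, dg Γ v ≤ 3} ≤ ko o (2 * r + N) r :=
      card_mono fun Γ h => ⟨h.1, h.2.1, h.2.2.1, h.2.2.2.1⟩
    have h4 : ko o (2 * r + N) r ≤
        Nat.card {Γ : SimpleGraph (Fin (2 * r + N)) // (∀ v, 2 ≤ dg Γ v) ∧ CXG Γ ∧
          ne Γ = 2 * r + N + r ∧ EO o Γ ∧ ∀ v, dg Γ v ≤ 3} +
        Nat.card {Γ : SimpleGraph (Fin (2 * r + N)) // (∀ v, 2 ≤ dg Γ v) ∧ CXG Γ ∧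
          ne Γ = 2 * r + N + r ∧ ∃ v, 4 ≤ dg Γ v} := by
      refine card_le_add fun Γ h => ?_
      by_cases h5 : ∀ v, dg Γ v ≤ 3
      · exact Or.inl ⟨h.1, h.2.1, h.2.2.1, h.2.2.2, h5⟩
      · push Not at h5
        obtain ⟨v, hv⟩ := h5
        exact Or.inr ⟨h.1, h.2.1, h.2.2.1, v, hv⟩
    rw [← h1] at h3 h4
    constructor
    · have h5 : Nat.card {Γ : SimpleGraph (Fin (2 * r) ⊕ Fin N) // CubG o r N Γ} *
          (2 * r + N).choose (2 * r) ≤ ko o (2 * r + N) r := by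
        rw [mul_comm]
        exact h3
      exact_mod_cast h5
    · have h5 : (ko o (2 * r + N) r : ℝ) ≤ ((2 * r + N).choose (2 * r) : ℝ) *
          (Nat.card {Γ : SimpleGraph (Fin (2 * r) ⊕ Fin N) // CubG o r N Γ} : ℝ) +
          (Nat.card {Γ : SimpleGraph (Fin (2 * r + N)) // (∀ v, 2 ≤ dg Γ v) ∧ CXG Γ ∧
          ne Γ = 2 * r + N + r ∧ ∃ v, 4 ≤ dg Γ v} : ℝ) := by exact_mod_cast h4
      linarith
  refine tendsto_of_tendsto_of_tendsto_of_le_of_le' hlow hup ?_ ?_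
  · filter_upwards [eventually_ge_atTop (2 * r)] with s hs
    obtain ⟨N, rfl⟩ : ∃ N, s = 2 * r + N := ⟨s - 2 * r, by omega⟩
    have hD : (0 : ℝ) < ((2 * r + N).factorial : ℝ) * ((2 * r + N : ℕ) : ℝ) ^ (3 * r - 1) := by
      have h1 : (0 : ℝ) < ((2 * r + N : ℕ) : ℝ) := by
        have : 0 < 2 * r + N := by omega
        exact_mod_cast this
      have h2 : (0 : ℝ) < ((2 * r + N).factorial : ℝ) := by exact_mod_cast Nat.factorial_pos _
      positivity
    have hp : (0 : ℝ) < ((∏ i ∈ range N, (6 * r + 2 * i) : ℕ) : ℝ) := by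
      exact_mod_cast prod_pos' r N hr
    have h1 : K * RR r (2 * r + N) - K' * RR r (2 * r + N) * QQ r (2 * r + N) =
        ((2 * r + N).choose (2 * r) : ℝ) * (((a : ℝ) * ((∏ i ∈ range N, (6 * r + 2 * i) : ℕ) : ℝ) -
        ((12 * r * Nat.doubleFactorial (6 * r - 1) : ℕ) : ℝ) *
          ((∏ i ∈ range N, (6 * r + 2 * i - 1) : ℕ) : ℝ)) / (36 ^ r * 2 ^ N)) /
        (((2 * r + N).factorial : ℝ) * ((2 * r + N : ℕ) : ℝ) ^ (3 * r - 1)) := by
      have h2 : QQ r (2 * r + N) = ((∏ i ∈ range N, (6 * r + 2 * i - 1) : ℕ) : ℝ) /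
          ((∏ i ∈ range N, (6 * r + 2 * i) : ℕ) : ℝ) := by
        unfold QQ
        rw [Nat.add_sub_cancel_left]
      have h3 : K * RR r (2 * r + N) - K' * RR r (2 * r + N) * QQ r (2 * r + N) =
          ((a : ℝ) - ((12 * r * Nat.doubleFactorial (6 * r - 1) : ℕ) : ℝ) *
            QQ r (2 * r + N)) * (RR r (2 * r + N) / (((2 * r).factorial : ℝ) * 36 ^ r) /
            ((3 * r - 1).factorial : ℝ)) := by
        rw [hK, hK']
        ring
      rw [h3, ← hnorm N, h2]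
      have hp' := hp.ne'
      generalize ((∏ i ∈ range N, (6 * r + 2 * i) : ℕ) : ℝ) = X at hp' ⊢
      generalize ((∏ i ∈ range N, (6 * r + 2 * i - 1) : ℕ) : ℝ) = Y
      field_simp
    rw [h1]
    refine div_le_div_of_nonneg_right ?_ hD.le
    refine le_trans ?_ (hko N).1
    rw [mul_comm]
    refine mul_le_mul_of_nonneg_right ?_ (Nat.cast_nonneg _)
    rw [div_le_iff₀ (by positivity)]
    exact (key N).2.trans (le_of_eq (by ring))
  · filter_upwards [eventually_ge_atTop (2 * r)] with s hs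
    obtain ⟨N, rfl⟩ : ∃ N, s = 2 * r + N := ⟨s - 2 * r, by omega⟩
    have hs0 : (0 : ℝ) < ((2 * r + N : ℕ) : ℝ) := by
      have : 0 < 2 * r + N := by omega
      exact_mod_cast this
    have hf0 : (0 : ℝ) < ((2 * r + N).factorial : ℝ) := by exact_mod_cast Nat.factorial_pos _
    have hD : (0 : ℝ) < ((2 * r + N).factorial : ℝ) * ((2 * r + N : ℕ) : ℝ) ^ (3 * r - 1) := by
      positivity
    rw [div_le_iff₀ hD]
    refine (hko N).2.trans ?_
    have h1 : (Nat.card {Γ : SimpleGraph (Fin (2 * r) ⊕ Fin N) // CubG o r N Γ} : ℝ) ≤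
        (a : ℝ) * ((∏ i ∈ range N, (6 * r + 2 * i) : ℕ) : ℝ) / (36 ^ r * 2 ^ N) := by
      rw [le_div_iff₀ (by positivity), mul_comm]
      exact (key N).1
    have h2 : K * RR r (2 * r + N) = ((2 * r + N).choose (2 * r) : ℝ) *
        ((a : ℝ) * ((∏ i ∈ range N, (6 * r + 2 * i) : ℕ) : ℝ) / (36 ^ r * 2 ^ N)) /
        (((2 * r + N).factorial : ℝ) * ((2 * r + N : ℕ) : ℝ) ^ (3 * r - 1)) := by
      have h3 : K * RR r (2 * r + N) = (a : ℝ) * (RR r (2 * r + N) /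
          (((2 * r).factorial : ℝ) * 36 ^ r) / ((3 * r - 1).factorial : ℝ)) := by
        rw [hK]
        ring
      rw [h3, ← hnorm N]
      ring
    rw [h2, add_mul, div_mul_cancel₀ _ hD.ne']
    have h3 : C / ((2 * r + N : ℕ) : ℝ) * (((2 * r + N).factorial : ℝ) *
        ((2 * r + N : ℕ) : ℝ) ^ (3 * r - 1)) =
        C * ((2 * r + N).factorial : ℝ) * ((2 * r + N : ℕ) : ℝ) ^ (3 * r - 2) := by
      have h4 : 3 * r - 1 = (3 * r - 2) + 1 := by omega
      rw [h4, pow_succ]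
      field_simp
    rw [h3]
    refine add_le_add ?_ le_rfl
    rw [mul_comm]
    exact mul_le_mul_of_nonneg_left h1 (Nat.cast_nonneg _)

end Pool.Agent.Helper81.AL
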