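import Pool.Agent.Helper26.AL.GoalsA

/-!
Project AL, packet MGE: the Moebius inverted numbers as a convolution.
-/

namespace Pool.Agent.Helper81.AL

open Finset Pool.Agent.Helper26.AF Pool.Agent.Helper26.AL

open Classical in
theorem co_eq (g j i : ℕ) : (co (some g) j i : ℝ) =
    ∑ H : SimpleGraph (Fin j), if CXG H ∧ ne H = j + i ∧ Embeds H g then (1 : ℝ) else 0 := by
  unfold co
  rw [Nat.card_eq_fintype_card, Fintype.card_subtype, Finset.sum_ite, Finset.sum_const_zero,
    add_zero, Finset.sum_const, nsmul_eq_mul, mul_one]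
  congr 2
  ext H
  simp [EO]

open Classical in
theorem pair_eq (hCXN : StmtCXN) (g j k r : ℕ) (hj : j ≤ k) (H₁ : SimpleGraph (Fin j))
    (H₂ : SimpleGraph (Fin (k - j))) :
    (if CXG H₁ ∧ Embeds H₁ g ∧ CXG H₂ ∧ ne H₁ + ne H₂ = k + r then (-1 : ℝ) ^ cc H₂ else 0) =
    ∑ i ∈ range (r + 1), (if CXG H₁ ∧ ne H₁ = j + i ∧ Embeds H₁ g then (1 : ℝ) else 0) *
      (if CXG H₂ ∧ ne H₂ = (k - j) + (r - i) then (-1 : ℝ) ^ cc H₂ else 0) := by
  by_cases h1 : CXG H₁
  · by_cases h2 : CXG H₂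
    · by_cases h3 : Embeds H₁ g
      · have e1 := (hCXN (Fin j) H₁ h1).1
        have e2 := (hCXN (Fin (k - j)) H₂ h2).1
        rw [Fintype.card_fin] at e1 e2
        by_cases h4 : ne H₁ + ne H₂ = k + r
        · rw [if_pos ⟨h1, h3, h2, h4⟩, Finset.sum_eq_single (ne H₁ - j)]
          · rw [if_pos ⟨h1, by omega, h3⟩, if_pos ⟨h2, by omega⟩, one_mul]
          · intro i _ hi
            rw [if_neg (fun h => hi (by have := h.2.1; omega)), zero_mul]
          · intro h
            exact absurd (Finset.mem_range.2 (by omega)) h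
        · rw [if_neg (fun h => h4 h.2.2.2), Finset.sum_eq_zero]
          intro i hi
          have hi' := Finset.mem_range.1 hi
          by_cases h5 : ne H₁ = j + i
          · rw [if_neg (fun h : CXG H₂ ∧ ne H₂ = (k - j) + (r - i) => h4 (by
              have := h.2; omega)), mul_zero]
          · rw [if_neg (fun h => h5 h.2.1), zero_mul]
      · rw [if_neg (fun h => h3 h.2.1), Finset.sum_eq_zero]
        intro i _
        rw [if_neg (fun h => h3 h.2.2), zero_mul]
    · rw [if_neg (fun h => h2 h.2.2.1), Finset.sum_eq_zero]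
      intro i _
      rw [if_neg (fun h : CXG H₂ ∧ ne H₂ = (k - j) + (r - i) => h2 h.1), mul_zero]
  · rw [if_neg (fun h => h1 h.1), Finset.sum_eq_zero]
    intro i _
    rw [if_neg (fun h => h1 h.1), zero_mul]

/-- Packet MGE. -/
theorem goalMGE (hCXN : StmtCXN) : StmtMGE := by
  intro g k r
  classical
  unfold mg
  refine Finset.sum_congr rfl fun j hj => ?_
  have hj' : j ≤ k := Nat.lt_succ_iff.1 (Finset.mem_range.1 hj)
  congr 1
  have h1 : ∀ i ∈ range (r + 1), (co (some g) j i : ℝ) * ds (k - j) (r - i) =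
      ∑ H₁ : SimpleGraph (Fin j), ∑ H₂ : SimpleGraph (Fin (k - j)),
        (if CXG H₁ ∧ ne H₁ = j + i ∧ Embeds H₁ g then (1 : ℝ) else 0) *
        (if CXG H₂ ∧ ne H₂ = (k - j) + (r - i) then (-1 : ℝ) ^ cc H₂ else 0) := by
    intro i _
    rw [co_eq, ds, Finset.sum_mul_sum]
  rw [Finset.sum_congr rfl h1]
  refine Eq.trans ?_ Finset.sum_comm
  refine Finset.sum_congr rfl fun H₁ _ => ?_
  refine Eq.trans ?_ Finset.sum_comm
  refine Finset.sum_congr rfl fun H₂ _ => ?_
  exact pair_eq hCXN g j k r hj' H₁ H₂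

end Pool.Agent.Helper81.AL
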