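import Pool.Agent.Helper26.AL.GoalsB
import Pool.Agent.Helper4.AF.KFO

/-!
Project AL (MP_af6c86_pr), packet NCU: cores with a vertex of degree at least four are few.
-/

namespace Pool.Agent.Helper81.AL

open Finset
open Pool.Agent.Helper26.AF Pool.Agent.Helper26.AL
open Pool.Agent.Helper4.AF (handshake prod_step sum_inv six_le)

/-- The number of graphs with all components complex, excess `r` and degree function `d`. -/
noncomputable def Nx (s r : ℕ) (d : Fin s → ℕ) : ℕ :=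
  Nat.card {Γ : SimpleGraph (Fin s) // CXG Γ ∧ (∀ v, dg Γ v = d v) ∧ ne Γ = s + r}

open Classical in
/-- The degree function of `B` and `j`. -/
noncomputable def dB {s : ℕ} (B : Finset (Fin s)) (j : Fin s → ℕ) (v : Fin s) : ℕ :=
  if v ∈ B then 3 + j v else 2

lemma count_le (s r : ℕ) (hr : 1 ≤ r) :
    Nat.card {Γ : SimpleGraph (Fin s) // (∀ v, 2 ≤ dg Γ v) ∧ CXG Γ ∧ ne Γ = s + r ∧
      ∃ v, 4 ≤ dg Γ v} ≤ ∑ v ∈ Icc 1 (2 * r - 1),
    ∑ B ∈ powersetCard v (univ : Finset (Fin s)), ∑ j ∈ piAntidiag B (2 * r - v),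
      Nx s r (dB B j) := by
  classical
  have hK : Nat.card {Γ : SimpleGraph (Fin s) // (∀ v, 2 ≤ dg Γ v) ∧ CXG Γ ∧ ne Γ = s + r ∧
      ∃ v, 4 ≤ dg Γ v} = #((univ : Finset (SimpleGraph (Fin s))).filter
      fun Γ => (∀ v, 2 ≤ dg Γ v) ∧ CXG Γ ∧ ne Γ = s + r ∧ ∃ v, 4 ≤ dg Γ v) := by
    rw [Nat.card_eq_fintype_card, Fintype.card_subtype]
  have hN : ∀ d, Nx s r d = #((univ : Finset (SimpleGraph (Fin s))).filter
      fun Γ => CXG Γ ∧ (∀ v, dg Γ v = d v) ∧ ne Γ = s + r) := by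
    intro d
    rw [Nx, Nat.card_eq_fintype_card, Fintype.card_subtype]
  rw [hK]
  simp_rw [hN]
  refine le_trans (card_le_card (t := (Icc 1 (2 * r - 1)).biUnion fun v =>
    (powersetCard v (univ : Finset (Fin s))).biUnion fun B => (piAntidiag B (2 * r - v)).biUnion
      fun j => (univ : Finset (SimpleGraph (Fin s))).filter
        fun Γ => CXG Γ ∧ (∀ v, dg Γ v = dB B j v) ∧ ne Γ = s + r) ?_)
    (card_biUnion_le.trans (sum_le_sum fun v _ => card_biUnion_le.trans
      (sum_le_sum fun B _ => card_biUnion_le)))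
  intro Γ hΓ
  rw [mem_filter] at hΓ
  obtain ⟨_, h2, hc, he, v₀, hv₀⟩ := hΓ
  set B : Finset (Fin s) := univ.filter fun v => 3 ≤ dg Γ v with hB
  have hmB : ∀ v, v ∈ B ↔ 3 ≤ dg Γ v := fun v => by rw [hB, mem_filter]; simp
  have hsum : ∑ v, dg Γ v = 2 * (s + r) := by rw [handshake, he]
  have hsplit : ∑ v ∈ B, dg Γ v + ∑ v ∈ Bᶜ, dg Γ v = 2 * (s + r) := by
    rw [sum_add_sum_compl, hsum]
  have hcompl : ∑ v ∈ Bᶜ, dg Γ v = 2 * (s - #B) := by
    have h3 : ∀ v ∈ Bᶜ, dg Γ v = 2 := by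
      intro v hv
      rw [mem_compl, hmB] at hv
      have := h2 v
      omega
    rw [sum_congr rfl h3, sum_const, card_compl, Fintype.card_fin, smul_eq_mul, mul_comm]
  have hBs : #B ≤ s := by
    have := card_le_univ B
    rwa [Fintype.card_fin] at this
  have hBsum : ∑ v ∈ B, dg Γ v = 2 * r + 2 * #B := by omega
  have hj : ∑ v ∈ B, (dg Γ v - 3) + 3 * #B = 2 * r + 2 * #B := by
    rw [← hBsum]
    have h3 : 3 * #B = ∑ v ∈ B, 3 := by rw [sum_const, smul_eq_mul, mul_comm]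
    rw [h3, ← sum_add_distrib]
    refine sum_congr rfl fun v hv => ?_
    have := (hmB v).1 hv
    omega
  have hv₀B : v₀ ∈ B := (hmB v₀).2 (by omega)
  have hB1 : 1 ≤ #B := card_pos.2 ⟨v₀, hv₀B⟩
  have hj1 : dg Γ v₀ - 3 ≤ ∑ v ∈ B, (dg Γ v - 3) :=
    single_le_sum (f := fun v => dg Γ v - 3) (fun _ _ => Nat.zero_le _) hv₀B
  rw [mem_biUnion]
  refine ⟨#B, mem_Icc.2 ⟨hB1, by omega⟩, ?_⟩
  rw [mem_biUnion]
  refine ⟨B, mem_powersetCard.2 ⟨subset_univ _, rfl⟩, ?_⟩
  rw [mem_biUnion]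
  refine ⟨fun v => dg Γ v - 3, ?_, ?_⟩
  · rw [mem_piAntidiag]
    refine ⟨by omega, fun i hi => ?_⟩
    rw [hmB]
    omega
  · rw [mem_filter]
    refine ⟨mem_univ _, hc, fun v => ?_, he⟩
    unfold dB
    split_ifs with h
    · have := (hmB v).1 h
      show dg Γ v = 3 + (dg Γ v - 3)
      omega
    · rw [hmB] at h
      have := h2 v
      omega

lemma term_le (hNPC : StmtNPC) (hPAV : StmtPAV) (s r : ℕ) (hr : 1 ≤ r) (B : Finset (Fin s))
    (j : Fin s → ℕ) (hB : #B ≤ 2 * r) (hj : j ∈ piAntidiag B (2 * r - #B)) :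
    (Nx s r (dB B j) : ℝ) ≤ (Nat.doubleFactorial (2 * #B + 2 * r - 1) : ℝ) *
      (((s + r - 1).factorial : ℝ) / ((#B + r - 1).factorial : ℝ)) * (1 / 6 : ℝ) ^ #B *
      (1 / ((∏ i ∈ B, (j i).factorial : ℕ) : ℝ)) := by
  classical
  rw [mem_piAntidiag] at hj
  have h2 : ∀ v, 2 ≤ dB B j v := by
    intro v
    unfold dB
    split_ifs <;> omega
  have hiff : ∀ v, dB B j v = 2 ↔ v ∉ B := by
    intro v
    unfold dB
    split_ifs with h
    · constructor
      · intro h'; omega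
      · intro h'; exact absurd h h'
    · simp [h]
  have hBs : #B ≤ s := by
    have := card_le_univ B
    rwa [Fintype.card_fin] at this
  have hP := hPAV s r (dB B j) h2
  have hX : Fintype.card (Σ v : {v : Fin s // dB B j v ≠ 2}, Fin (dB B j v.1)) =
      2 * (#B + r) := by
    rw [Fintype.card_sigma]
    simp only [Fintype.card_fin]
    rw [← Finset.sum_subtype (F := inferInstance) B (p := fun v => dB B j v ≠ 2)
      (fun v => by rw [Ne, hiff, not_not]) (dB B j)]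
    have h3 : ∀ v ∈ B, dB B j v = 3 + j v := by
      intro v hv
      unfold dB
      rw [if_pos hv]
    rw [sum_congr rfl h3, sum_add_distrib, sum_const, smul_eq_mul]
    have h4 : ∑ i ∈ B, j i = 2 * r - #B := hj.1
    rw [h4]
    omega
  have hW : Fintype.card {v : Fin s // dB B j v = 2} = s - #B := by
    rw [Fintype.card_subtype]
    have h3 : (univ.filter fun v => dB B j v = 2) = Bᶜ := by
      ext v
      rw [mem_filter, mem_compl, hiff]
      simp
    rw [h3, card_compl, Fintype.card_fin]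
  rw [hNPC _ _ (#B + r) hX, hW] at hP
  have hprod : ∏ v, (dB B j v).factorial = 2 ^ (s - #B) * ∏ i ∈ B, (3 + j i).factorial := by
    rw [← prod_mul_prod_compl B, mul_comm]
    congr 1
    · have h3 : ∀ v ∈ Bᶜ, (dB B j v).factorial = 2 := by
        intro v hv
        rw [mem_compl] at hv
        rw [(hiff v).2 hv]
        rfl
      rw [prod_congr rfl h3, prod_const, card_compl, Fintype.card_fin]
    · refine prod_congr rfl fun v hv => ?_
      unfold dB
      rw [if_pos hv]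
  have hps := prod_step (#B + r) (s - #B) (by omega)
  have h5 : #B + r + (s - #B) - 1 = s + r - 1 := by omega
  rw [h5] at hps
  set P : ℕ := ∏ i ∈ range (s - #B), (2 * (#B + r) + 2 * i) with hPdef
  have h6 : 2 * (#B + r) - 1 = 2 * #B + 2 * r - 1 := by omega
  rw [h6] at hP
  rw [show Nat.card {Γ : SimpleGraph (Fin s) // CXG Γ ∧ (∀ v, dg Γ v = dB B j v) ∧
    ne Γ = s + r} = Nx s r (dB B j) from rfl, hprod] at hP
  -- combinatorial inequality in natural numbers
  have h7 : 6 ^ #B * ∏ i ∈ B, (j i).factorial ≤ ∏ i ∈ B, (3 + j i).factorial := by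
    rw [← prod_const, ← prod_mul_distrib]
    exact prod_le_prod' fun i _ => six_le (j i)
  have h8 : Nx s r (dB B j) * (6 ^ #B * ∏ i ∈ B, (j i).factorial) * (#B + r - 1).factorial ≤
      Nat.doubleFactorial (2 * #B + 2 * r - 1) * (s + r - 1).factorial := by
    have h9 : 0 < 2 ^ (s - #B) := by positivity
    refine Nat.le_of_mul_le_mul_left ?_ h9
    calc 2 ^ (s - #B) * (Nx s r (dB B j) * (6 ^ #B * ∏ i ∈ B, (j i).factorial) *
          (#B + r - 1).factorial)
        ≤ 2 ^ (s - #B) * (Nx s r (dB B j) * (∏ i ∈ B, (3 + j i).factorial) *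
          (#B + r - 1).factorial) := by gcongr
      _ = (Nx s r (dB B j) * (2 ^ (s - #B) * ∏ i ∈ B, (3 + j i).factorial)) *
          (#B + r - 1).factorial := by ring
      _ ≤ (Nat.doubleFactorial (2 * #B + 2 * r - 1) * P) * (#B + r - 1).factorial := by gcongr
      _ = Nat.doubleFactorial (2 * #B + 2 * r - 1) * (P * (#B + r - 1).factorial) := by ring
      _ = _ := by rw [hps]; ring
  have h9 : (Nx s r (dB B j) : ℝ) * ((6 : ℝ) ^ #B * ((∏ i ∈ B, (j i).factorial : ℕ) : ℝ)) *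
      ((#B + r - 1).factorial : ℝ) ≤
      (Nat.doubleFactorial (2 * #B + 2 * r - 1) : ℝ) * ((s + r - 1).factorial : ℝ) := by
    exact_mod_cast h8
  have hq : (0 : ℝ) < ((∏ i ∈ B, (j i).factorial : ℕ) : ℝ) := by
    have : 0 < (∏ i ∈ B, (j i).factorial : ℕ) := prod_pos fun i _ => Nat.factorial_pos _
    exact_mod_cast this
  have hf : (0 : ℝ) < ((#B + r - 1).factorial : ℝ) := by
    exact_mod_cast Nat.factorial_pos _
  have h10 : (Nat.doubleFactorial (2 * #B + 2 * r - 1) : ℝ) *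
      (((s + r - 1).factorial : ℝ) / ((#B + r - 1).factorial : ℝ)) * (1 / 6 : ℝ) ^ #B *
      (1 / ((∏ i ∈ B, (j i).factorial : ℕ) : ℝ)) =
      ((Nat.doubleFactorial (2 * #B + 2 * r - 1) : ℝ) * ((s + r - 1).factorial : ℝ)) /
        ((6 : ℝ) ^ #B * ((∏ i ∈ B, (j i).factorial : ℕ) : ℝ) * ((#B + r - 1).factorial : ℝ)) := by
    rw [one_div_pow]
    field_simp
  rw [h10, le_div_iff₀ (by positivity), ← mul_assoc, ← mul_assoc]
  rw [← mul_assoc] at h9
  exact h9

/-- The growth of the main factor. -/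
lemma choose_fact (s r v : ℕ) (hr : 1 ≤ r) (hs : 1 ≤ s) (hv : v ≤ 2 * r - 1) (hv1 : 1 ≤ v) :
    s.choose v * (s + r - 1).factorial ≤ s.factorial * ((r + 1) ^ (3 * r - 2) *
      s ^ (3 * r - 2)) := by
  rcases lt_or_ge s v with h | h
  · rw [Nat.choose_eq_zero_of_lt h, zero_mul]
    exact Nat.zero_le _
  · have h1 := Nat.factorial_mul_descFactorial (n := s + r - 1) (k := v + r - 1) (by omega)
    have h2 : s + r - 1 - (v + r - 1) = s - v := by omega
    rw [h2] at h1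
    have h3 := Nat.descFactorial_le_pow (s + r - 1) (v + r - 1)
    have h4 := Nat.choose_mul_factorial_mul_factorial h
    have h5 : s.choose v * (s - v).factorial ≤ s.factorial := by
      rw [← h4]
      calc s.choose v * (s - v).factorial = s.choose v * 1 * (s - v).factorial := by ring
        _ ≤ s.choose v * v.factorial * (s - v).factorial := by
          gcongr
          exact Nat.succ_le_of_lt (Nat.factorial_pos v)
    have h6 : s + r - 1 ≤ (r + 1) * s := by
      have h7 : r * 1 ≤ r * s := Nat.mul_le_mul_left r hs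
      calc s + r - 1 ≤ s + r * 1 := by omega
        _ ≤ s + r * s := by omega
        _ = (r + 1) * s := by ring
    calc s.choose v * (s + r - 1).factorial
        = (s.choose v * (s - v).factorial) * (s + r - 1).descFactorial (v + r - 1) := by
          rw [← h1]
          ring
      _ ≤ s.factorial * (s + r - 1) ^ (v + r - 1) := Nat.mul_le_mul h5 h3
      _ ≤ s.factorial * ((r + 1) * s) ^ (v + r - 1) := by gcongr
      _ ≤ s.factorial * ((r + 1) * s) ^ (3 * r - 2) := by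
          refine Nat.mul_le_mul_left _ (Nat.pow_le_pow_right ?_ (by omega))
          exact Nat.mul_pos (Nat.succ_pos _) hs
      _ = _ := by rw [mul_pow]

theorem goalNCU (hPAV : Pool.Agent.Helper26.AL.StmtPAV) (hNPC : Pool.Agent.Helper26.AF.StmtNPC) :
    Pool.Agent.Helper26.AL.StmtNCU := by
  classical
  intro r hr
  refine ⟨∑ v ∈ Icc 1 (2 * r - 1), (Nat.doubleFactorial (2 * v + 2 * r - 1) : ℝ) *
      (1 / ((v + r - 1).factorial : ℝ)) * (1 / 6 : ℝ) ^ v *
      ((v : ℝ) ^ (2 * r - v) / ((2 * r - v).factorial : ℝ)) * (((r : ℝ) + 1) ^ (3 * r - 2)) + 1,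
      ?_, ?_⟩
  · have h1 : 0 ≤ ∑ v ∈ Icc 1 (2 * r - 1), (Nat.doubleFactorial (2 * v + 2 * r - 1) : ℝ) *
      (1 / ((v + r - 1).factorial : ℝ)) * (1 / 6 : ℝ) ^ v *
      ((v : ℝ) ^ (2 * r - v) / ((2 * r - v).factorial : ℝ)) * (((r : ℝ) + 1) ^ (3 * r - 2)) :=
      sum_nonneg fun v _ => by positivity
    linarith
  intro s hs
  have h1 : (Nat.card {Γ : SimpleGraph (Fin s) // (∀ v, 2 ≤ dg Γ v) ∧ CXG Γ ∧ ne Γ = s + r ∧
      ∃ v, 4 ≤ dg Γ v} : ℝ) ≤ ∑ v ∈ Icc 1 (2 * r - 1),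
      ∑ B ∈ powersetCard v (univ : Finset (Fin s)), ∑ j ∈ piAntidiag B (2 * r - v),
        (Nx s r (dB B j) : ℝ) := by
    exact_mod_cast count_le s r hr
  refine h1.trans ?_
  have h0 : (0 : ℝ) ≤ (s.factorial : ℝ) * (s : ℝ) ^ (3 * r - 2) := by positivity
  have h2 : ∀ v ∈ Icc 1 (2 * r - 1), (∑ B ∈ powersetCard v (univ : Finset (Fin s)),
      ∑ j ∈ piAntidiag B (2 * r - v), (Nx s r (dB B j) : ℝ)) ≤
      ((Nat.doubleFactorial (2 * v + 2 * r - 1) : ℝ) *
      (1 / ((v + r - 1).factorial : ℝ)) * (1 / 6 : ℝ) ^ v *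
      ((v : ℝ) ^ (2 * r - v) / ((2 * r - v).factorial : ℝ)) * (((r : ℝ) + 1) ^ (3 * r - 2))) *
      ((s.factorial : ℝ) * (s : ℝ) ^ (3 * r - 2)) := by
    intro v hv
    rw [mem_Icc] at hv
    have h3 : ∀ B ∈ powersetCard v (univ : Finset (Fin s)), ∑ j ∈ piAntidiag B (2 * r - v),
        (Nx s r (dB B j) : ℝ) ≤ (Nat.doubleFactorial (2 * v + 2 * r - 1) : ℝ) *
        (((s + r - 1).factorial : ℝ) / ((v + r - 1).factorial : ℝ)) * (1 / 6 : ℝ) ^ v *
        ((v : ℝ) ^ (2 * r - v) / ((2 * r - v).factorial : ℝ)) := by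
      intro B hB
      rw [mem_powersetCard] at hB
      obtain ⟨_, rfl⟩ := hB
      refine (sum_le_sum fun j hj => term_le hNPC hPAV s r hr B j (by omega) hj).trans ?_
      rw [← mul_sum, sum_inv]
    refine (sum_le_sum h3).trans ?_
    rw [sum_const, card_powersetCard, card_univ, Fintype.card_fin, nsmul_eq_mul]
    have h4 : ((s.choose v : ℝ) * ((s + r - 1).factorial : ℝ)) ≤
        (s.factorial : ℝ) * (((r : ℝ) + 1) ^ (3 * r - 2) * (s : ℝ) ^ (3 * r - 2)) := by
      exact_mod_cast choose_fact s r v hr hs hv.2 hv.1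
    have h5 : (0 : ℝ) ≤ (Nat.doubleFactorial (2 * v + 2 * r - 1) : ℝ) *
      (1 / ((v + r - 1).factorial : ℝ)) * (1 / 6 : ℝ) ^ v *
      ((v : ℝ) ^ (2 * r - v) / ((2 * r - v).factorial : ℝ)) := by positivity
    calc (s.choose v : ℝ) * ((Nat.doubleFactorial (2 * v + 2 * r - 1) : ℝ) *
          (((s + r - 1).factorial : ℝ) / ((v + r - 1).factorial : ℝ)) * (1 / 6 : ℝ) ^ v *
          ((v : ℝ) ^ (2 * r - v) / ((2 * r - v).factorial : ℝ)))
        = ((Nat.doubleFactorial (2 * v + 2 * r - 1) : ℝ) *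
          (1 / ((v + r - 1).factorial : ℝ)) * (1 / 6 : ℝ) ^ v *
          ((v : ℝ) ^ (2 * r - v) / ((2 * r - v).factorial : ℝ))) *
          ((s.choose v : ℝ) * ((s + r - 1).factorial : ℝ)) := by ring
      _ ≤ ((Nat.doubleFactorial (2 * v + 2 * r - 1) : ℝ) *
          (1 / ((v + r - 1).factorial : ℝ)) * (1 / 6 : ℝ) ^ v *
          ((v : ℝ) ^ (2 * r - v) / ((2 * r - v).factorial : ℝ))) *
          ((s.factorial : ℝ) * (((r : ℝ) + 1) ^ (3 * r - 2) * (s : ℝ) ^ (3 * r - 2))) :=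
          mul_le_mul_of_nonneg_left h4 h5
      _ = _ := by ring
  refine (sum_le_sum h2).trans ?_
  rw [← sum_mul, mul_assoc, add_mul]
  linarith

end Pool.Agent.Helper81.AL
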